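import Pool.Agent.Helper47.UG.Stmts

set_option autoImplicit false

/-! Module THN of project UG: thin boxes. -/

namespace Pool.Agent.Helper47.UG

open Finset
open scoped Classical
open Pool.Agent.Helper37.DG (box sbox)

/-- a quadratic equation has at most two roots -/
theorem thn_quad (A β γ : ℝ) (hA : 0 < A) (S : Finset ℤ)
    (h : ∀ x ∈ S, A * (x : ℝ) ^ 2 + β * (x : ℝ) = γ) : S.card ≤ 2 := by
  by_contra hc
  rw [not_le] at hc
  obtain ⟨x, y, z, hx, hy, hz, hxy, hxz, hyz⟩ := Finset.two_lt_card_iff.mp hc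
  have h1 := h x hx
  have h2 := h y hy
  have h3 := h z hz
  have d1 : ((x : ℝ) - y) ≠ 0 := by
    intro h0
    apply hxy
    have : (x : ℝ) = y := by linarith
    exact_mod_cast this
  have d2 : ((x : ℝ) - z) ≠ 0 := by
    intro h0
    apply hxz
    have : (x : ℝ) = z := by linarith
    exact_mod_cast this
  have e1 : ((x : ℝ) - y) * (A * ((x : ℝ) + y) + β) = 0 := by linarith
  have e2 : ((x : ℝ) - z) * (A * ((x : ℝ) + z) + β) = 0 := by linarith
  have f1 := (mul_eq_zero.mp e1).resolve_left d1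
  have f2 := (mul_eq_zero.mp e2).resolve_left d2
  have g1 : A * ((y : ℝ) - z) = 0 := by linarith
  have g2 : (y : ℝ) - z = 0 := (mul_eq_zero.mp g1).resolve_left hA.ne'
  apply hyz
  have : (y : ℝ) = z := by linarith
  exact_mod_cast this

/-- the pairs of abscissas over a pair of heights -/
noncomputable def thnT (A B C : ℝ) (N : ℕ) (y y' : ℤ) : Finset (ℤ × ℤ) :=
  (sbox N N).filter (fun u => Fm A B C (u.1, y) = Fm A B C (u.2, y'))

/-- number of integers in the symmetric interval -/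
theorem thn_icc (N : ℕ) : (Finset.Icc (-(N : ℤ)) (N : ℤ)).card = 2 * N + 1 := by
  rw [Int.card_Icc]
  omega

theorem thn_triv (A B C : ℝ) (hA : 0 < A) (N : ℕ) (y y' : ℤ) :
    (thnT A B C N y y').card ≤ 2 * (2 * N + 1) := by
  rw [← thn_icc N]
  apply Finset.card_le_mul_card_image_of_maps_to (f := fun u : ℤ × ℤ => u.2)
  · intro u hu
    unfold thnT sbox at hu
    rw [Finset.mem_filter, Finset.mem_product] at hu
    exact hu.1.2
  · intro b _
    have hinj : Set.InjOn (fun u : ℤ × ℤ => u.1)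
        (((thnT A B C N y y').filter (fun u => u.2 = b) : Finset (ℤ × ℤ)) : Set (ℤ × ℤ)) := by
      intro u hu v hv huv
      rw [Finset.mem_coe, Finset.mem_filter] at hu hv
      exact Prod.ext huv (hu.2.trans hv.2.symm)
    rw [← Finset.card_image_of_injOn hinj]
    apply thn_quad A (B * y) (Fm A B C (b, y') - C * (y : ℝ) ^ 2) hA
    intro x hx
    obtain ⟨u, hu, rfl⟩ := Finset.mem_image.mp hx
    rw [Finset.mem_filter] at hu
    obtain ⟨hu1, hu2⟩ := hu
    unfold thnT at hu1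
    rw [Finset.mem_filter] at hu1
    have h3 := hu1.2
    rw [hu2] at h3
    rw [← h3]
    unfold Fm
    simp only
    ring

theorem thn_hyp (C₁ : ℝ) (hC₁ : 0 < C₁)
    (H : ∀ (A B₁ B₂ G : ℝ) (N : ℕ) (S : Finset (ℤ × ℤ)), 0 < A →
      1 ≤ N → 4 * A * G + B₁ ^ 2 - B₂ ^ 2 ≠ 0 → S ⊆ sbox N N →
      (∀ v ∈ S, A * (v.1 : ℝ) ^ 2 + B₁ * (v.1 : ℝ) - A * (v.2 : ℝ) ^ 2 - B₂ * (v.2 : ℝ) = G) →
      (S.card : ℝ) ^ 3 ≤ C₁ * (N : ℝ) ^ 2)
    (A B C : ℝ) (hA : 0 < A) (hD : 0 < 4 * A * C - B ^ 2) (N M : ℕ) (hM : 1 ≤ M)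
    (hMN : M ^ 3 ≤ N) (y y' : ℤ) (hy : ¬ (y' = y ∨ y' = -y)) :
    (M : ℝ) * ((thnT A B C N y y').card : ℝ) ≤ (1 + C₁) * N := by
  have hN : 1 ≤ N := le_trans (Nat.one_le_pow _ _ hM) hMN
  have hsq : ((y' : ℝ) ^ 2 - (y : ℝ) ^ 2) ≠ 0 := by
    intro h0
    apply hy
    have h1 : ((y' : ℝ) - y) * ((y' : ℝ) + y) = 0 := by linarith
    rcases mul_eq_zero.mp h1 with h2 | h2
    · left
      have : (y' : ℝ) = y := by linarith
      exact_mod_cast this
    · right
      have : (y' : ℝ) = ((-y : ℤ) : ℝ) := by push_cast; linarith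
      exact_mod_cast this
  have h3 := H A (B * y) (B * y') (C * ((y' : ℝ) ^ 2 - (y : ℝ) ^ 2)) N (thnT A B C N y y') hA hN
    (by
      have : 4 * A * (C * ((y' : ℝ) ^ 2 - (y : ℝ) ^ 2)) + (B * y) ^ 2 - (B * y') ^ 2 =
          (4 * A * C - B ^ 2) * ((y' : ℝ) ^ 2 - (y : ℝ) ^ 2) := by ring
      rw [this]
      exact mul_ne_zero hD.ne' hsq)
    (Finset.filter_subset _ _)
    (by
      intro v hv
      unfold thnT at hv
      rw [Finset.mem_filter] at hv
      have h4 := hv.2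
      unfold Fm at h4
      simp only at h4
      linarith)
  have hMr : (1 : ℝ) ≤ M := by exact_mod_cast hM
  have hNr : (1 : ℝ) ≤ N := by exact_mod_cast hN
  have hMNr : (M : ℝ) ^ 3 ≤ N := by exact_mod_cast hMN
  set c : ℝ := ((thnT A B C N y y').card : ℝ) with hc
  have hc0 : 0 ≤ c := by rw [hc]; positivity
  have h5 : (M * c) ^ 3 ≤ ((1 + C₁) * N) ^ 3 := by
    calc (M * c) ^ 3 = (M : ℝ) ^ 3 * c ^ 3 := by ring
      _ ≤ (N : ℝ) * (C₁ * (N : ℝ) ^ 2) := by
          apply mul_le_mul hMNr h3 (by positivity) (by positivity)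
      _ = C₁ * (N : ℝ) ^ 3 := by ring
      _ ≤ (1 + C₁) ^ 3 * (N : ℝ) ^ 3 := by
          apply mul_le_mul_of_nonneg_right _ (by positivity)
          nlinarith [hC₁, mul_pos hC₁ hC₁, mul_pos (mul_pos hC₁ hC₁) hC₁]
      _ = ((1 + C₁) * N) ^ 3 := by ring
  exact le_of_pow_le_pow_left₀ (by norm_num) (by positivity) h5

/-- the energy over the whole box of differences -/
theorem thn_energy (A B C : ℝ) (N M : ℕ) :
    ((sbox N M ×ˢ sbox N M).filter (fun u => Fm A B C u.1 = Fm A B C u.2)).card ≤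
      ∑ y ∈ Finset.Icc (-(M : ℤ)) (M : ℤ), ∑ y' ∈ Finset.Icc (-(M : ℤ)) (M : ℤ),
        (thnT A B C N y y').card := by
  rw [← Finset.sum_product' (s := Finset.Icc (-(M : ℤ)) (M : ℤ))
    (t := Finset.Icc (-(M : ℤ)) (M : ℤ)) (f := fun y y' => (thnT A B C N y y').card)]
  rw [Finset.card_eq_sum_card_fiberwise (f := fun u : (ℤ × ℤ) × (ℤ × ℤ) => (u.1.2, u.2.2))
    (t := Finset.Icc (-(M : ℤ)) (M : ℤ) ×ˢ Finset.Icc (-(M : ℤ)) (M : ℤ))]
  · apply Finset.sum_le_sum
    intro p _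
    apply Finset.card_le_card_of_injOn (fun u : (ℤ × ℤ) × (ℤ × ℤ) => (u.1.1, u.2.1))
    · intro u hu
      rw [Finset.mem_coe, Finset.mem_filter, Finset.mem_filter, Finset.mem_product] at hu
      obtain ⟨⟨⟨h1, h2⟩, h3⟩, h4⟩ := hu
      have h5 : u.1.2 = p.1 := (Prod.ext_iff.mp h4).1
      have h6 : u.2.2 = p.2 := (Prod.ext_iff.mp h4).2
      rw [Finset.mem_coe]
      unfold thnT
      rw [Finset.mem_filter]
      unfold sbox at h1 h2 ⊢
      rw [Finset.mem_product] at h1 h2 ⊢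
      refine ⟨⟨h1.1, h2.1⟩, ?_⟩
      simp only
      rw [← h5, ← h6]
      exact h3
    · intro u hu v hv huv
      rw [Finset.mem_coe, Finset.mem_filter] at hu hv
      have h1 := hu.2.trans hv.2.symm
      have h2 : u.1.2 = v.1.2 := (Prod.ext_iff.mp h1).1
      have h3 : u.2.2 = v.2.2 := (Prod.ext_iff.mp h1).2
      have h4 : u.1.1 = v.1.1 := (Prod.ext_iff.mp huv).1
      have h5 : u.2.1 = v.2.1 := (Prod.ext_iff.mp huv).2
      exact Prod.ext (Prod.ext h4 h2) (Prod.ext h5 h3)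
  · intro u hu
    rw [Finset.mem_coe, Finset.mem_filter, Finset.mem_product] at hu
    obtain ⟨⟨h1, h2⟩, _⟩ := hu
    unfold sbox at h1 h2
    rw [Finset.mem_product] at h1 h2
    rw [Finset.mem_coe, Finset.mem_product]
    exact ⟨h1.2, h2.2⟩

theorem thn_row (C₁ : ℝ) (hC₁ : 0 < C₁)
    (H : ∀ (A B₁ B₂ G : ℝ) (N : ℕ) (S : Finset (ℤ × ℤ)), 0 < A →
      1 ≤ N → 4 * A * G + B₁ ^ 2 - B₂ ^ 2 ≠ 0 → S ⊆ sbox N N →
      (∀ v ∈ S, A * (v.1 : ℝ) ^ 2 + B₁ * (v.1 : ℝ) - A * (v.2 : ℝ) ^ 2 - B₂ * (v.2 : ℝ) = G) →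
      (S.card : ℝ) ^ 3 ≤ C₁ * (N : ℝ) ^ 2)
    (A B C : ℝ) (hA : 0 < A) (hD : 0 < 4 * A * C - B ^ 2) (N M : ℕ) (hM : 1 ≤ M)
    (hMN : M ^ 3 ≤ N) (y : ℤ) :
    ∑ y' ∈ Finset.Icc (-(M : ℤ)) (M : ℤ), ((thnT A B C N y y').card : ℝ) ≤
      (12 + 3 * (1 + C₁)) * N := by
  have hN : 1 ≤ N := le_trans (Nat.one_le_pow _ _ hM) hMN
  have hMr : (1 : ℝ) ≤ M := by exact_mod_cast hM
  have hNr : (1 : ℝ) ≤ N := by exact_mod_cast hN
  have hterm : ∀ y' ∈ Finset.Icc (-(M : ℤ)) (M : ℤ), ((thnT A B C N y y').card : ℝ) ≤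
      (if y' = y ∨ y' = -y then 6 * (N : ℝ) else 0) + (1 + C₁) * N / M := by
    intro y' _
    by_cases hy : y' = y ∨ y' = -y
    · rw [if_pos hy]
      have h1 : ((thnT A B C N y y').card : ℝ) ≤ 2 * (2 * N + 1) := by
        exact_mod_cast thn_triv A B C hA N y y'
      have h2 : 0 ≤ (1 + C₁) * N / M := by positivity
      linarith
    · rw [if_neg hy, zero_add, le_div_iff₀ (by linarith)]
      have := thn_hyp C₁ hC₁ H A B C hA hD N M hM hMN y y' hy
      linarith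
  refine (Finset.sum_le_sum hterm).trans ?_
  rw [Finset.sum_add_distrib, Finset.sum_const, thn_icc, nsmul_eq_mul, ← Finset.sum_filter,
    Finset.sum_const, nsmul_eq_mul]
  have h2 : ((Finset.Icc (-(M : ℤ)) (M : ℤ)).filter (fun y' => y' = y ∨ y' = -y)).card ≤ 2 := by
    have hsub : (Finset.Icc (-(M : ℤ)) (M : ℤ)).filter (fun y' => y' = y ∨ y' = -y) ⊆
        {y, -y} := by
      intro t ht
      rw [Finset.mem_filter] at ht
      rw [Finset.mem_insert, Finset.mem_singleton]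
      exact ht.2
    exact (Finset.card_le_card hsub).trans Finset.card_le_two
  have h3 : (((Finset.Icc (-(M : ℤ)) (M : ℤ)).filter (fun y' => y' = y ∨ y' = -y)).card : ℝ) ≤
      2 := by exact_mod_cast h2
  have h4 : ((2 * M + 1 : ℕ) : ℝ) * ((1 + C₁) * N / M) ≤ 3 * (1 + C₁) * N := by
    push_cast
    have h5 : (2 * (M : ℝ) + 1) * ((1 + C₁) * N / M) = ((2 * M + 1) * ((1 + C₁) * N)) / M := by
      ring
    rw [h5, div_le_iff₀ (by linarith)]
    have h6 : 0 ≤ (1 + C₁) * (N : ℝ) := by positivity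
    nlinarith
  have h7 : (((Finset.Icc (-(M : ℤ)) (M : ℤ)).filter (fun y' => y' = y ∨ y' = -y)).card : ℝ) *
      (6 * N) ≤ 2 * (6 * N) := mul_le_mul_of_nonneg_right h3 (by positivity)
  linarith

/-- THN: thin boxes. -/
theorem st_THN (hHYP : ST_HYP) : ST_THN := by
  obtain ⟨C₁, hC₁, H⟩ := hHYP
  refine ⟨2 * (3 * (12 + 3 * (1 + C₁))), by positivity, ?_⟩
  intro A B C N M P hA hD hM hMN hP hcard
  have hN : 1 ≤ N := le_trans (Nat.one_le_pow _ _ hM) hMN
  have hMr : (1 : ℝ) ≤ M := by exact_mod_cast hM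
  have hNr : (1 : ℝ) ≤ N := by exact_mod_cast hN
  obtain ⟨b₀, hb₀⟩ : P.Nonempty := Finset.card_pos.mp (by omega)
  set V : Finset (ℤ × ℤ) := P.image (fun p => p - b₀) with hV
  have hVcard : V.card = P.card :=
    Finset.card_image_of_injective _ (fun a b hab => sub_left_injective hab)
  have hVs : V ⊆ sbox N M := by
    intro v hv
    obtain ⟨p, hp, rfl⟩ := Finset.mem_image.mp hv
    have h1 := hP hp
    have h2 := hP hb₀
    unfold Pool.Agent.Helper37.DG.box at h1 h2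
    rw [Finset.mem_product, Finset.mem_Ico, Finset.mem_Ico] at h1 h2
    unfold sbox
    rw [Finset.mem_product, Finset.mem_Icc, Finset.mem_Icc, Prod.fst_sub, Prod.snd_sub]
    refine ⟨⟨?_, ?_⟩, ⟨?_, ?_⟩⟩ <;> linarith [h1.1.1, h1.1.2, h1.2.1, h1.2.2, h2.1.1, h2.1.2,
      h2.2.1, h2.2.2]
  -- the energy of V
  set E : Finset ((ℤ × ℤ) × (ℤ × ℤ)) :=
    (V ×ˢ V).filter (fun u => Fm A B C u.1 = Fm A B C u.2) with hE
  have hEcard : (E.card : ℝ) ≤ 3 * (12 + 3 * (1 + C₁)) * (M * N) := by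
    have h1 : E.card ≤ ∑ y ∈ Finset.Icc (-(M : ℤ)) (M : ℤ), ∑ y' ∈ Finset.Icc (-(M : ℤ)) (M : ℤ),
        (thnT A B C N y y').card := by
      refine le_trans (Finset.card_le_card ?_) (thn_energy A B C N M)
      intro u hu
      rw [hE, Finset.mem_filter, Finset.mem_product] at hu
      rw [Finset.mem_filter, Finset.mem_product]
      exact ⟨⟨hVs hu.1.1, hVs hu.1.2⟩, hu.2⟩
    have h2 : (E.card : ℝ) ≤ ∑ y ∈ Finset.Icc (-(M : ℤ)) (M : ℤ),
        ∑ y' ∈ Finset.Icc (-(M : ℤ)) (M : ℤ), ((thnT A B C N y y').card : ℝ) := by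
      exact_mod_cast h1
    refine h2.trans ?_
    refine (Finset.sum_le_sum (fun y _ => thn_row C₁ hC₁ H A B C hA hD N M hM hMN y)).trans ?_
    rw [Finset.sum_const, thn_icc, nsmul_eq_mul]
    push_cast
    have h3 : 0 ≤ (12 + 3 * (1 + C₁)) * (N : ℝ) := by positivity
    nlinarith
  -- Cauchy-Schwarz
  set W : Finset ℝ := V.image (Fm A B C) with hW
  have hsum : (V.card : ℝ) = ∑ s ∈ W, ((V.filter (fun v => Fm A B C v = s)).card : ℝ) := by
    have h1 := Finset.card_eq_sum_card_image (Fm A B C) V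
    rw [h1]
    push_cast
    rfl
  have hEsum : (E.card : ℝ) = ∑ s ∈ W, ((V.filter (fun v => Fm A B C v = s)).card : ℝ) ^ 2 := by
    have h1 : E.card = ∑ s ∈ W, (E.filter (fun u => Fm A B C u.1 = s)).card := by
      apply Finset.card_eq_sum_card_fiberwise
      intro u hu
      rw [Finset.mem_coe, hE, Finset.mem_filter, Finset.mem_product] at hu
      rw [Finset.mem_coe]
      exact Finset.mem_image_of_mem _ hu.1.1
    rw [h1]
    push_cast
    apply Finset.sum_congr rfl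
    intro s _
    have h2 : E.filter (fun u => Fm A B C u.1 = s) =
        (V.filter (fun v => Fm A B C v = s)) ×ˢ (V.filter (fun v => Fm A B C v = s)) := by
      ext u
      rw [Finset.mem_filter, hE, Finset.mem_filter, Finset.mem_product, Finset.mem_product,
        Finset.mem_filter, Finset.mem_filter]
      constructor
      · rintro ⟨⟨⟨h3, h4⟩, h5⟩, h6⟩
        exact ⟨⟨h3, h6⟩, ⟨h4, h5.symm.trans h6⟩⟩
      · rintro ⟨⟨h3, h6⟩, ⟨h4, h5⟩⟩
        exact ⟨⟨⟨h3, h4⟩, h6.trans h5.symm⟩, h6⟩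
    rw [h2, Finset.card_product]
    push_cast
    ring
  have hCS : (V.card : ℝ) ^ 2 ≤ (W.card : ℝ) * E.card := by
    rw [hsum, hEsum]
    exact sq_sum_le_card_mul_sum_sq
  -- the number of values
  have hcF1 : 1 ≤ cF A B C P := by
    unfold cF
    rw [Nat.one_le_iff_ne_zero, Ne, Finset.card_eq_zero, Finset.image_eq_empty]
    intro h0
    have h1 := Finset.offDiag_card P
    rw [h0, Finset.card_empty] at h1
    have h2 : P.card * P.card - P.card = P.card * (P.card - 1) := by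
      rw [Nat.mul_sub, mul_one]
    rw [h2] at h1
    have h3 : 0 < P.card * (P.card - 1) := Nat.mul_pos (by omega) (by omega)
    omega
  have hWcard : W.card ≤ 1 + cF A B C P := by
    have hsub : W ⊆ insert (Fm A B C 0)
        (P.offDiag.image (fun u => Fm A B C (u.1 - u.2))) := by
      intro s hs
      obtain ⟨v, hv, rfl⟩ := Finset.mem_image.mp hs
      obtain ⟨p, hp, rfl⟩ := Finset.mem_image.mp hv
      rw [Finset.mem_insert]
      by_cases hpb : p = b₀
      · left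
        rw [hpb, sub_self]
      · right
        rw [Finset.mem_image]
        refine ⟨(p, b₀), ?_, rfl⟩
        rw [Finset.mem_offDiag]
        exact ⟨hp, hb₀, hpb⟩
    refine (Finset.card_le_card hsub).trans ?_
    refine (Finset.card_insert_le _ _).trans ?_
    unfold cF
    omega
  have hWr : (W.card : ℝ) ≤ 2 * cF A B C P := by
    have : W.card ≤ 2 * cF A B C P := by omega
    exact_mod_cast this
  rw [← hVcard]
  calc (V.card : ℝ) ^ 2 ≤ (W.card : ℝ) * E.card := hCS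
    _ ≤ (2 * cF A B C P) * (3 * (12 + 3 * (1 + C₁)) * (M * N)) := by
        apply mul_le_mul hWr hEcard (by positivity) (by positivity)
    _ = 2 * (3 * (12 + 3 * (1 + C₁))) * ((M : ℝ) * N) * cF A B C P := by ring

end Pool.Agent.Helper47.UG
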